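import Pool.Agent.Helper75.FU.StM

set_option autoImplicit false
set_option linter.unusedSectionVars false

namespace Pool.Agent.Helper64.FU

open Pool.Agent.Helper75.FU Pool.Agent.Helper91.GU

universe u

section

variable {A : Type u} [CommRing A] {n : Type} [Fintype n] [DecidableEq n]

/-- the image of an invertible matrix -/
def M1_F (φ : A →+* A) : (Matrix n n A)ˣ →* (Matrix n n A)ˣ :=
  Units.map (φ.mapMatrix : Matrix n n A →+* Matrix n n A).toMonoidHom

theorem M1_F_val (φ : A →+* A) (σ : (Matrix n n A)ˣ) :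
    ((M1_F φ σ : (Matrix n n A)ˣ) : Matrix n n A) = (σ : Matrix n n A).map φ := rfl

/-- the action on rows -/
def M1_a (v : n → A) (σ : (Matrix n n A)ˣ) : n → A := Matrix.vecMul v (σ : Matrix n n A)

theorem M1_a_mul (v : n → A) (σ τ : (Matrix n n A)ˣ) :
    M1_a v (σ * τ) = M1_a (M1_a v σ) τ := by
  unfold M1_a
  rw [Matrix.vecMul_vecMul, Units.val_mul]

theorem M1_a_one (v : n → A) : M1_a v 1 = v := by
  unfold M1_a
  rw [Units.val_one, Matrix.vecMul_one]

theorem M1_a_inv {v w : n → A} {σ : (Matrix n n A)ˣ} (h : M1_a v σ = w) : M1_a w σ⁻¹ = v := by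
  rw [← h, ← M1_a_mul, mul_inv_cancel, M1_a_one]

/-- the image of a row -/
def M1_p (φ : A →+* A) (v : n → A) : n → A := fun l => φ (v l)

theorem M1_p_a (φ : A →+* A) (v : n → A) (σ : (Matrix n n A)ˣ) :
    M1_p φ (M1_a v σ) = M1_a (M1_p φ v) (M1_F φ σ) := by
  funext l
  unfold M1_p M1_a
  rw [RingHom.map_vecMul, M1_F_val]
  rfl

theorem M1_F_comm {φ ψ : A →+* A} (h : ∀ x, φ (ψ x) = ψ (φ x)) (σ : (Matrix n n A)ˣ) :
    M1_F φ (M1_F ψ σ) = M1_F ψ (M1_F φ σ) := by
  apply Units.ext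
  ext i j
  exact h _

theorem M1_F_idem {φ : A →+* A} (h : ∀ x, φ (φ x) = φ x) (σ : (Matrix n n A)ˣ) :
    M1_F φ (M1_F φ σ) = M1_F φ σ := by
  apply Units.ext
  ext i j
  exact h _

theorem M1_Um_a {v : n → A} (h : Um v) (σ : (Matrix n n A)ˣ) : Um (M1_a v σ) := by
  obtain ⟨y, hy⟩ := h
  refine ⟨Matrix.mulVec ((σ⁻¹ : (Matrix n n A)ˣ) : Matrix n n A) y, ?_⟩
  have h1 : M1_a (M1_a v σ) σ⁻¹ = v := M1_a_inv rfl
  rw [Matrix.dotProduct_mulVec]
  change M1_a (M1_a v σ) σ⁻¹ ⬝ᵥ y = 1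
  rw [h1, hy]

theorem M1_Um_p {v : n → A} (h : Um v) (φ : A →+* A) : Um (M1_p φ v) := by
  obtain ⟨y, hy⟩ := h
  refine ⟨fun l => φ (y l), ?_⟩
  have h1 := congrArg φ hy
  rw [map_one] at h1
  rw [← h1]
  simp only [dotProduct, M1_p, map_sum, map_mul]

end

theorem hM1 : StM1.{u} := by
  intro A _ k r π hcomm hidem hfix
  set e : Unit ⊕ Fin r → A := row 1 0 with he
  have hpe : ∀ i, M1_p (π i) e = e := by
    intro i
    funext l
    rcases l with l | l
    · exact map_one _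
    · exact map_zero _
  -- the claim
  have claim : ∀ (j : Fin k) (v : Unit ⊕ Fin r → A) (J : Finset (Fin k)), Um v →
      (∀ i ∈ J, M1_p (π i) v = e) → ∀ J' : Finset (Fin k), J' ⊆ J →
      ∃ σ : (Matrix (Unit ⊕ Fin r) (Unit ⊕ Fin r) A)ˣ, M1_F (π j) σ = σ ∧
        M1_a e σ = M1_p (π j) v ∧ ∀ i ∈ J', M1_F (π i) σ = 1 := by
    intro j v J hv hJ J'
    induction J' using Finset.induction_on with
    | empty =>
      intro _
      obtain ⟨g, hg1, hg2, hg3⟩ := hfix j (M1_p (π j) v) (M1_Um_p hv _) (fun l => hidem j _)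
      obtain ⟨σ, hσ⟩ := (Matrix.isUnit_iff_isUnit_det g).2 hg1
      refine ⟨σ, ?_, ?_, by simp⟩
      · apply Units.ext
        rw [M1_F_val, hσ, hg2]
      · unfold M1_a
        rw [hσ, he, hg3]
    | insert l J' _ ih =>
      intro hsub
      obtain ⟨σ, h1, h2, h3⟩ := ih (fun x hx => hsub (Finset.mem_insert_of_mem hx))
      have hl : l ∈ J := hsub (Finset.mem_insert_self _ _)
      have h4 : M1_a e (M1_F (π l) σ) = e := by
        have h5 : M1_p (π l) (M1_a e σ) = M1_a e (M1_F (π l) σ) := by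
          rw [M1_p_a, hpe]
        rw [← h5, h2]
        have h6 : M1_p (π l) (M1_p (π j) v) = M1_p (π j) (M1_p (π l) v) := by
          funext x
          exact hcomm l j _
        rw [h6, hJ l hl, hpe]
      refine ⟨(M1_F (π l) σ)⁻¹ * σ, ?_, ?_, ?_⟩
      · rw [map_mul, map_inv, M1_F_comm (hcomm j l), h1]
      · rw [M1_a_mul, M1_a_inv h4, h2]
      · intro i hi
        rcases Finset.mem_insert.1 hi with rfl | hi
        · rw [map_mul, map_inv, M1_F_idem (hidem i), inv_mul_cancel]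
        · rw [map_mul, map_inv, M1_F_comm (hcomm i l), h3 i hi, map_one, inv_one, one_mul]
  -- induction on the set of indices
  have main : ∀ J : Finset (Fin k), ∀ v : Unit ⊕ Fin r → A, Um v →
      ∃ σ : (Matrix (Unit ⊕ Fin r) (Unit ⊕ Fin r) A)ˣ, ∀ i ∈ J, M1_p (π i) (M1_a v σ) = e := by
    intro J
    induction J using Finset.induction_on with
    | empty => exact fun v _ => ⟨1, by simp⟩
    | insert j J _ ih =>
      intro v hv
      obtain ⟨τ, hτ⟩ := ih v hv
      obtain ⟨σ, h1, h2, h3⟩ := claim j (M1_a v τ) J (M1_Um_a hv τ) hτ J (Finset.Subset.refl _)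
      refine ⟨τ * σ⁻¹, fun i hi => ?_⟩
      rw [M1_a_mul, M1_p_a, map_inv]
      rcases Finset.mem_insert.1 hi with rfl | hi
      · rw [h1]
        exact M1_a_inv h2
      · rw [h3 i hi, inv_one, M1_a_one]
        exact hτ i hi
  intro v hv
  obtain ⟨σ, hσ⟩ := main Finset.univ v hv
  refine ⟨M1_a v σ, ⟨σ, (Matrix.isUnit_iff_isUnit_det _).1 σ.isUnit, rfl⟩, fun i l => ?_⟩
  exact congrFun (hσ i (Finset.mem_univ _)) l

end Pool.Agent.Helper64.FU
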